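import Pool.Agent.V11261.TQ.One

set_option autoImplicit false
set_option linter.unusedVariables false
set_option linter.unusedSectionVars false

open MvPolynomial

universe u v

namespace Pool.Agent.V11261.TQ

/-- The data of a group scheme `T ^ q = b * T` of translations by `T * w`. The numbers `β n`
are such that `T ^ n = β n * T` for certain `n`. -/
structure Op (E : Type u) (σ : Type v) where
  /-- the direction of the translation -/
  w : σ → E
  /-- the order -/
  q : ℕ
  /-- the coefficient -/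
  b : E
  /-- the linear reductions -/
  β : ℕ → E

section

variable {k E : Type u} [Field k] [Field E] [Algebra k E] {σ : Type v}

/-- Invariance. -/
def Op.Inv (o : Op E σ) (f : MvPolynomial σ E) : Prop := TQ.Inv o.w o.q o.b f

/-- Compatibility. -/
def Op.Rel (o1 o2 : Op E σ) : Prop :=
  Lam o2.q o2.b ∣ Polynomial.X ^ o1.q - Polynomial.C (o2.β o1.q) * Polynomial.X

/-- The condition on the order. -/
def Op.Ok (p : ℕ) (o : Op E σ) : Prop := (∃ s, o.q = p ^ s) ∧ (1 < o.q ∨ o.b = 0)

/-- The data are defined over `C'`. -/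
def Op.In (C' : Subalgebra k E) (o : Op E σ) : Prop :=
  (∀ j, o.w j ∈ C') ∧ o.b ∈ C' ∧ ∀ n, o.β n ∈ C'

variable [DecidableEq σ]

/-- The transform. -/
noncomputable def Op.tf (o1 : Op E σ) (e : σ) (o : Op E σ) : Op E σ where
  w j := if j = e then o.β o1.q * o.w e ^ o1.q - (o1.b * o1.w e ^ (o1.q - 1)) * o.w e
    else o.w j - (o1.w j / o1.w e) * o.w e
  q := o.q
  b := o.b
  β := o.β

lemma Op.tf_in {C' : Subalgebra k E} {o1 o : Op E σ} (h1 : o1.In C') (h : o.In C') {e : σ}
    (he : ∀ j, o1.w j / o1.w e ∈ C') : (o1.tf e o).In C' := by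
  refine ⟨fun j => ?_, h.2.1, h.2.2⟩
  change (if j = e then _ else _) ∈ C'
  split_ifs
  · exact C'.sub_mem (C'.mul_mem (h.2.2 _) (C'.pow_mem (h.1 _) _))
      (C'.mul_mem (C'.mul_mem h1.2.1 (C'.pow_mem (h1.1 _) _)) (h.1 _))
  · exact C'.sub_mem (h.1 _) (C'.mul_mem (he j) (h.1 _))

lemma exists_min_index [Fintype σ] {C' : Subalgebra k E} {w : σ → E} (hw : w ≠ 0)
    (h : ∀ i j, w i ≠ 0 → w j ≠ 0 → w i / w j ∈ C' ∨ w j / w i ∈ C') :
    ∃ e, w e ≠ 0 ∧ ∀ j, w j / w e ∈ C' := by
  classical
  have key : ∀ s : Finset σ, (∀ j ∈ s, w j ≠ 0) → s.Nonempty →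
      ∃ e ∈ s, ∀ j ∈ s, w j / w e ∈ C' := by
    intro s hs0 hs
    induction hs using Finset.Nonempty.cons_induction with
    | singleton a =>
      refine ⟨a, Finset.mem_singleton_self a, fun j hj => ?_⟩
      rw [Finset.mem_singleton.1 hj, div_self (hs0 a (Finset.mem_singleton_self a))]
      exact C'.one_mem
    | cons a s ha hs ih =>
      obtain ⟨e, he, hmin⟩ := ih fun j hj => hs0 j (Finset.mem_cons_of_mem hj)
      have ha0 := hs0 a (Finset.mem_cons_self a s)
      have he0 := hs0 e (Finset.mem_cons_of_mem he)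
      rcases h a e ha0 he0 with h1 | h1
      · refine ⟨e, Finset.mem_cons_of_mem he, fun j hj => ?_⟩
        rcases Finset.mem_cons.1 hj with rfl | hj
        · exact h1
        · exact hmin j hj
      · refine ⟨a, Finset.mem_cons_self a s, fun j hj => ?_⟩
        rcases Finset.mem_cons.1 hj with rfl | hj
        · rw [div_self ha0]; exact C'.one_mem
        · have h2 : w j / w a = (w j / w e) * (w e / w a) := by field_simp
          rw [h2]
          exact C'.mul_mem (hmin j hj) h1
  have hne : (Finset.univ.filter fun j => w j ≠ 0).Nonempty := by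
    by_contra hcon
    rw [Finset.not_nonempty_iff_eq_empty, Finset.filter_eq_empty_iff] at hcon
    apply hw
    funext j
    have := hcon (Finset.mem_univ j)
    push Not at this
    exact this
  obtain ⟨e, he, hmin⟩ := key _ (by simp) hne
  refine ⟨e, (Finset.mem_filter.1 he).2, fun j => ?_⟩
  by_cases hj : w j = 0
  · rw [hj, zero_div]; exact C'.zero_mem
  · exact hmin j (by simpa using hj)

/-- The rings of invariants over charts are polynomial rings. -/
theorem chart (k : Type u) {E : Type u} [Field k] [Field E] [Algebra k E] {σ : Type v}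
    [DecidableEq σ] [Fintype σ] {p : ℕ} [Fact p.Prime] [CharP E p] : ∀ (n : ℕ)
    (L : List (Op E σ)), L.length = n → L.Pairwise Op.Rel → (∀ o ∈ L, o.Ok p) →
    ∃ S : Finset E, (∀ a ∈ S, a ≠ 0) ∧ ∀ C' : Subalgebra k E, (∀ o ∈ L, o.In C') →
      (∀ a ∈ S, ∀ b ∈ S, a / b ∈ C' ∨ b / a ∈ C') →
      ∃ φ : MvPolynomial σ E →ₐ[E] MvPolynomial σ E, Function.Injective φ ∧
        ∀ f, (f ∈ cf σ C' ∧ ∀ o ∈ L, o.Inv f) ↔ ∃ g ∈ cf σ C', f = φ g := by
  classical
  have hp : p.Prime := Fact.out
  intro n
  induction n with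
  | zero =>
    intro L hL _ _
    rw [List.length_eq_zero_iff] at hL
    subst hL
    refine ⟨∅, by simp, fun C' _ _ => ⟨AlgHom.id E _, Function.injective_id, fun f => ?_⟩⟩
    simp
  | succ n ih =>
    intro L hL hP hOk
    match L, hL with
    | o :: L', hL =>
    rw [List.length_cons, Nat.add_right_cancel_iff] at hL
    rw [List.pairwise_cons] at hP
    obtain ⟨hP1, hP2⟩ := hP
    have hOk1 := hOk o List.mem_cons_self
    have hOk2 : ∀ o' ∈ L', o'.Ok p := fun o' ho' => hOk o' (List.mem_cons_of_mem _ ho')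
    obtain ⟨S0, hS0, hS0'⟩ := ih L' hL hP2 hOk2
    have h1 : ∀ e : σ, ∃ S : Finset E, (∀ a ∈ S, a ≠ 0) ∧ ∀ C' : Subalgebra k E,
        (∀ o' ∈ L'.map (o.tf e), o'.In C') → (∀ a ∈ S, ∀ b ∈ S, a / b ∈ C' ∨ b / a ∈ C') →
        ∃ φ : MvPolynomial σ E →ₐ[E] MvPolynomial σ E, Function.Injective φ ∧
        ∀ f, (f ∈ cf σ C' ∧ ∀ o' ∈ L'.map (o.tf e), o'.Inv f) ↔ ∃ g ∈ cf σ C', f = φ g := by
      intro e
      refine ih _ (by rw [List.length_map, hL]) ?_ ?_
      · rw [List.pairwise_map]
        exact hP2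
      · intro o' ho'
        obtain ⟨o'', ho'', rfl⟩ := List.mem_map.1 ho'
        exact hOk2 o'' ho''
    choose S1 hS1 hS1' using h1
    refine ⟨(S0 ∪ Finset.univ.biUnion S1) ∪ (Finset.univ.image o.w).filter (fun a => a ≠ 0), ?_, ?_⟩
    · intro a ha
      rw [Finset.mem_union, Finset.mem_union, Finset.mem_biUnion, Finset.mem_filter] at ha
      rcases ha with (ha | ⟨e, -, ha⟩) | ⟨-, ha⟩
      · exact hS0 a ha
      · exact hS1 e a ha
      · exact ha
    intro C' hIn hcmp
    have hIn1 := hIn o List.mem_cons_self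
    have hIn2 : ∀ o' ∈ L', o'.In C' := fun o' ho' => hIn o' (List.mem_cons_of_mem _ ho')
    by_cases hw : o.w = 0
    · obtain ⟨φ, hφ, hφ'⟩ := hS0' C' hIn2 (fun a ha b hb => hcmp a
        (Finset.mem_union_left _ (Finset.mem_union_left _ ha)) b
        (Finset.mem_union_left _ (Finset.mem_union_left _ hb)))
      refine ⟨φ, hφ, fun f => ?_⟩
      rw [← hφ' f]
      constructor
      · rintro ⟨h1, h2⟩
        exact ⟨h1, fun o' ho' => h2 o' (List.mem_cons_of_mem _ ho')⟩
      · rintro ⟨h1, h2⟩
        refine ⟨h1, fun o' ho' => ?_⟩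
        rcases List.mem_cons.1 ho' with rfl | ho'
        · unfold Op.Inv
          rw [hw]
          exact inv_zero _ _ _
        · exact h2 o' ho'
    · obtain ⟨e, he0, he⟩ := exists_min_index (C' := C') hw (fun i j hi hj => hcmp _
        (Finset.mem_union_right _ (Finset.mem_filter.2
          ⟨Finset.mem_image_of_mem _ (Finset.mem_univ i), hi⟩)) _
        (Finset.mem_union_right _ (Finset.mem_filter.2
          ⟨Finset.mem_image_of_mem _ (Finset.mem_univ j), hj⟩)))
      obtain ⟨φ, hφ, hφ'⟩ := hS1' e C' (by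
        intro o' ho'
        obtain ⟨o'', ho'', rfl⟩ := List.mem_map.1 ho'
        exact Op.tf_in hIn1 (hIn2 o'' ho'') he) (fun a ha b hb => hcmp a
        (Finset.mem_union_left _ (Finset.mem_union_right _
          (Finset.mem_biUnion.2 ⟨e, Finset.mem_univ e, ha⟩))) b
        (Finset.mem_union_left _ (Finset.mem_union_right _
          (Finset.mem_biUnion.2 ⟨e, Finset.mem_univ e, hb⟩))))
      obtain ⟨⟨s, hs⟩, hqb⟩ := hOk1
      have hq : 0 < p ^ s := pow_pos hp.pos s
      let u : σ → E := fun j => o.w j / o.w e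
      have hue : u e = 1 := div_self he0
      have hwu : (fun j => o.w e * u j) = o.w := by
        funext j
        change o.w e * (o.w j / o.w e) = _
        field_simp
      let b' : E := o.b * o.w e ^ (p ^ s - 1)
      have hb'C : b' ∈ C' := C'.mul_mem hIn1.2.1 (C'.pow_mem (hIn1.1 _) _)
      rw [hs] at hqb
      have hqb' : 1 < p ^ s ∨ b' = 0 := hqb.imp_right fun h => by
        change o.b * _ = 0
        rw [h, zero_mul]
      have hinj := psi_injective e u hq hqb'
      have htr : ∀ o' ∈ L', ∀ g, o'.Inv (psi e u (p ^ s) b' g) ↔ (o.tf e o').Inv g := by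
        intro o' ho' g
        unfold Op.Inv
        refine inv_transport hinj (hOk2 o' ho').2 (fun j => ?_) g
        have h2 := hP1 o' ho'
        unfold Op.Rel at h2
        rw [hs] at h2
        have h3 := psi_transport e u s b' o'.w o'.q o'.b (o'.β (p ^ s)) h2 j
        have h4 : (o.tf e o').w j = (if j = e then o'.β (p ^ s) * o'.w e ^ p ^ s - b' * o'.w e
            else o'.w j - u j * o'.w e) := by
          change (if j = e then o'.β o.q * o'.w e ^ o.q - (o.b * o.w e ^ (o.q - 1)) * o'.w e
            else _) = _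
          rw [hs]
        rw [h4]
        exact h3
      refine ⟨(psi e u (p ^ s) b').comp φ, hinj.comp hφ, fun f => ?_⟩
      constructor
      · rintro ⟨h1, h2⟩
        have h3 : TQ.Inv (fun j => o.w e * u j) (p ^ s) o.b f := by
          have := h2 o List.mem_cons_self
          unfold Op.Inv at this
          rw [hs] at this
          rw [hwu]
          exact this
        obtain ⟨g, hg, hfg⟩ := mem_of_inv (C' := C') e he hue (hIn1.1 e) he0 s hIn1.2.1 hqb
          (f.totalDegree + 1) f h1 (Nat.lt_succ_self _) h3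
        obtain ⟨g', hg', hgg'⟩ := (hφ' g).1 ⟨hg, by
          intro o' ho'
          obtain ⟨o'', ho'', rfl⟩ := List.mem_map.1 ho'
          rw [← htr o'' ho'', ← hfg]
          exact h2 o'' (List.mem_cons_of_mem _ ho'')⟩
        refine ⟨g', hg', ?_⟩
        rw [AlgHom.comp_apply, ← hgg', hfg]
      · rintro ⟨g', hg', rfl⟩
        obtain ⟨h1, h2⟩ := (hφ' (φ g')).2 ⟨g', hg', rfl⟩
        refine ⟨?_, fun o' ho' => ?_⟩
        · rw [AlgHom.comp_apply]
          refine aeval_mem_cf (fun j => ?_) h1
          split_ifs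
          · exact Subalgebra.sub_mem _ (Subalgebra.pow_mem _ (X_mem_cf C' e) _)
              (Subalgebra.mul_mem _ (C_mem_cf hb'C) (X_mem_cf C' e))
          · exact Subalgebra.sub_mem _ (X_mem_cf C' j)
              (Subalgebra.mul_mem _ (C_mem_cf (he j)) (X_mem_cf C' e))
        · rcases List.mem_cons.1 ho' with rfl | ho'
          · have h3 := inv_psi e hue (c := o'.w e) s hqb (φ g')
            unfold Op.Inv
            rw [hs]
            rw [hwu] at h3
            exact h3
          · rw [AlgHom.comp_apply, htr o' ho']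
            exact h2 _ (List.mem_map_of_mem ho')

end

end Pool.Agent.V11261.TQ
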