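import Pool.Agent.V11261.TQ.Main

set_option autoImplicit false
set_option linter.unusedVariables false
set_option linter.unusedSectionVars false

open MvPolynomial AlgebraicGeometry CategoryTheory Pool.Agent.H920R2 Pool.Agent.W558

universe u v

namespace Pool.Agent.V11261.TQ

section beta

variable {B : Type u} [CommRing B] [IsDomain B] {p : ℕ} [Fact p.Prime] [CharP B p]

lemma exists_beta (b : B) (a : ℕ) : ∃ β : B,
    Lam p b ∣ Polynomial.X ^ p ^ a - Polynomial.C β * Polynomial.X := by
  have hE1 : ExpChar (Polynomial B) p :=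
    haveI : CharP (Polynomial B) p := inferInstance
    inferInstance
  have hp : p.Prime := Fact.out
  induction a with
  | zero => exact ⟨1, by simp⟩
  | succ a ih =>
    obtain ⟨β, hβ⟩ := ih
    refine ⟨β ^ p * b, ?_⟩
    have h1 : (Polynomial.X : Polynomial B) ^ p ^ (a + 1) -
        Polynomial.C (β ^ p * b) * Polynomial.X =
        ((Polynomial.X ^ p ^ a) ^ p - (Polynomial.C β * Polynomial.X) ^ p) +
          Polynomial.C β ^ p * Lam p b := by
      unfold Lam
      rw [pow_succ, pow_mul, Polynomial.C_mul, Polynomial.C_pow]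
      ring
    rw [h1]
    refine dvd_add ?_ (dvd_mul_left _ _)
    rw [← sub_pow_expChar]
    exact dvd_pow hβ hp.ne_zero

open Classical in
/-- The linear reductions. -/
noncomputable def bet (p : ℕ) (b : B) (N : ℕ) : B :=
  if h : ∃ β : B, Lam p b ∣ Polynomial.X ^ N - Polynomial.C β * Polynomial.X then h.choose else 0

lemma bet_spec (b : B) (a : ℕ) :
    Lam p b ∣ Polynomial.X ^ p ^ a - Polynomial.C (bet p b (p ^ a)) * Polynomial.X := by
  have h := exists_beta (p := p) b a
  rw [bet, dif_pos h]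
  exact h.choose_spec

end beta

section list

variable {B : Type u} [CommRing B] [IsDomain B] {p : ℕ} [Fact p.Prime] [CharP B p] {σ : Type}

/-- The infinitesimal part. -/
def opA (p : ℕ) (v : σ → B) (s : ℕ) : Op B σ := ⟨v, p ^ s, 0, fun _ => 0⟩

/-- The part of order `p`. -/
noncomputable def opN (p : ℕ) (w : σ → B) (b : B) : Op B σ := ⟨w, p, b, bet p b⟩

/-- The list of the operators. -/
noncomputable def ops (p : ℕ) {r : ℕ} (v : Fin r → σ → B) (s : Fin r → ℕ)
    {ι : Type u} [Fintype ι] (w : ι → σ → B) (b : ι → B) : List (Op B σ) :=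
  ((List.finRange r).mergeSort (fun i j => decide (s j ≤ s i))).map (fun i => opA p (v i) (s i)) ++
    (Finset.univ : Finset ι).toList.map fun i => opN p (w i) (b i)

variable {r : ℕ} (v : Fin r → σ → B) (s : Fin r → ℕ) {ι : Type u} [Fintype ι] (w : ι → σ → B)
  (b : ι → B)

lemma mem_ops (o : Op B σ) : o ∈ ops p v s w b ↔
    (∃ i, o = opA p (v i) (s i)) ∨ ∃ i, o = opN p (w i) (b i) := by
  unfold ops
  rw [List.mem_append, List.mem_map, List.mem_map]
  constructor
  · rintro (⟨i, -, rfl⟩ | ⟨i, -, rfl⟩)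
    · exact Or.inl ⟨i, rfl⟩
    · exact Or.inr ⟨i, rfl⟩
  · rintro (⟨i, rfl⟩ | ⟨i, rfl⟩)
    · exact Or.inl ⟨i, by rw [List.mem_mergeSort]; exact List.mem_finRange i, rfl⟩
    · exact Or.inr ⟨i, by rw [Finset.mem_toList]; exact Finset.mem_univ i, rfl⟩

lemma ops_ok (o : Op B σ) (ho : o ∈ ops p v s w b) :
    (∃ s, o.q = p ^ s) ∧ (1 < o.q ∨ o.b = 0) := by
  have hp : p.Prime := Fact.out
  rcases (mem_ops v s w b o).1 ho with ⟨i, rfl⟩ | ⟨i, rfl⟩
  · exact ⟨⟨s i, rfl⟩, Or.inr rfl⟩
  · exact ⟨⟨1, (pow_one p).symm⟩, Or.inl hp.one_lt⟩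

lemma ops_pairwise : (ops p v s w b).Pairwise (fun o1 o2 =>
    Lam o2.q o2.b ∣ Polynomial.X ^ o1.q - Polynomial.C (o2.β o1.q) * Polynomial.X) := by
  have hN : ∀ (o1 : Op B σ) (a : ℕ), o1.q = p ^ a → ∀ i,
      Lam (opN p (w i) (b i)).q (opN p (w i) (b i)).b ∣
      Polynomial.X ^ o1.q - Polynomial.C ((opN p (w i) (b i)).β o1.q) * Polynomial.X := by
    intro o1 a ha i
    rw [ha]
    exact bet_spec (b i) a
  unfold ops
  rw [List.pairwise_append]
  refine ⟨?_, ?_, ?_⟩
  · rw [List.pairwise_map]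
    have h1 := List.pairwise_mergeSort (le := fun i j => decide (s j ≤ s i))
      (fun a b c h1 h2 => by
        simp only [decide_eq_true_eq] at h1 h2 ⊢
        exact h2.trans h1)
      (fun a b => by
        simp only [Bool.or_eq_true, decide_eq_true_eq]
        exact le_total _ _) (List.finRange r)
    refine h1.imp ?_
    intro i j h
    simp only [decide_eq_true_eq] at h
    change Lam (p ^ s j) (0 : B) ∣ Polynomial.X ^ p ^ s i - Polynomial.C (0 : B) * Polynomial.X
    unfold Lam
    rw [Polynomial.C_0, zero_mul, sub_zero, sub_zero]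
    exact pow_dvd_pow _ (Nat.pow_le_pow_right (Fact.out : p.Prime).pos h)
  · rw [List.pairwise_map]
    refine List.pairwise_of_forall ?_
    intro i j
    exact hN _ 1 (pow_one p).symm j
  · intro o1 h1 o2 h2
    obtain ⟨i, -, rfl⟩ := List.mem_map.1 h1
    obtain ⟨j, -, rfl⟩ := List.mem_map.1 h2
    exact hN _ (s i) rfl j

lemma opA_inv (v : σ → B) (s : ℕ) (f : MvPolynomial σ B) :
    Inv (opA p v s).w (opA p v s).q (opA p v s).b f ↔ Inv v (p ^ s) 0 f := by
  unfold opA
  exact Iff.rfl

lemma opN_inv (w : σ → B) (b : B) (f : MvPolynomial σ B) :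
    Inv (opN p w b).w (opN p w b).q (opN p w b).b f ↔ Inv w p b f := by
  unfold opN
  exact Iff.rfl

lemma mem_ring_ops {k : Type u} [Field k] [Algebra k B] (f : MvPolynomial σ B) :
    f ∈ ring k (ops p v s w b) ↔
      (∀ i, Polynomial.X ^ p ^ s i ∣ tr (v i) f - Polynomial.C f) ∧
      ∀ i, Inv (w i) p (b i) f := by
  have h1 : f ∈ ring k (ops p v s w b) ↔ ∀ o ∈ ops p v s w b, Inv o.w o.q o.b f := Iff.rfl
  have h2 : ∀ i, Inv (v i) (p ^ s i) 0 f ↔
      Polynomial.X ^ p ^ s i ∣ tr (v i) f - Polynomial.C f := by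
    intro i
    unfold Inv LamP Lam
    rw [C_0, Polynomial.C_0, zero_mul, sub_zero]
  rw [h1]
  constructor
  · intro h
    refine ⟨fun i => (h2 i).1 ?_, fun i => ?_⟩
    · have h5 := h (opA p (v i) (s i)) ((mem_ops v s w b _).2 (Or.inl ⟨i, rfl⟩))
      exact (opA_inv (v i) (s i) f).1 h5
    · have h5 := h (opN p (w i) (b i)) ((mem_ops v s w b _).2 (Or.inr ⟨i, rfl⟩))
      exact (opN_inv (w i) (b i) f).1 h5
  · rintro ⟨h3, h4⟩ o ho
    rcases (mem_ops v s w b o).1 ho with ⟨i, rfl⟩ | ⟨i, rfl⟩
    · exact (opA_inv (v i) (s i) f).2 ((h2 i).2 (h3 i))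
    · exact (opN_inv (w i) (b i) f).2 (h4 i)

end list

section et

variable {B : Type u} [CommRing B] [IsDomain B] {p : ℕ} [Fact p.Prime] [CharP B p] {σ : Type}

/-- The translation by `g`. -/
noncomputable def sh (g : σ → B) : MvPolynomial σ B →ₐ[B] MvPolynomial σ B :=
  aeval fun j => X j + C (g j)

lemma eval_tr (g : σ → B) (f : MvPolynomial σ B) (c : ZMod p) :
    Polynomial.eval (C (ZMod.castHom (dvd_refl p) B c)) (tr g f) =
      sh (fun j => ZMod.castHom (dvd_refl p) B c * g j) f := by
  have h : (Polynomial.evalRingHom (C (ZMod.castHom (dvd_refl p) B c) :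
      MvPolynomial σ B)).comp (tr g : MvPolynomial σ B →+* _) =
      (sh (fun j => ZMod.castHom (dvd_refl p) B c * g j) : MvPolynomial σ B →+* _) := by
    apply MvPolynomial.ringHom_ext
    · intro a
      change Polynomial.eval _ (tr g (C a)) = sh _ (C a)
      rw [tr_C, Polynomial.eval_C, sh, aeval_C]
      rfl
    · intro j
      change Polynomial.eval _ (tr g (X j)) = sh _ (X j)
      rw [tr_X, Polynomial.eval_add, Polynomial.eval_mul, Polynomial.eval_C, Polynomial.eval_C,
        Polynomial.eval_X, sh, aeval_X, C_mul]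
  exact DFunLike.congr_fun h f

/-- Invariance under the constant group `ℤ / p`. -/
theorem inv_iff (g : σ → B) (f : MvPolynomial σ B) :
    Inv g p 1 f ↔ ∀ c : ZMod p, sh (fun j => ZMod.castHom (dvd_refl p) B c * g j) f = f := by
  have hp : p.Prime := Fact.out
  have hroot : ∀ c : ZMod p, Polynomial.eval (C (ZMod.castHom (dvd_refl p) B c) :
      MvPolynomial σ B) (LamP σ p (1 : B)) = 0 := by
    intro c
    rw [LamP, Lam, Polynomial.eval_sub, Polynomial.eval_mul, Polynomial.eval_pow,
      Polynomial.eval_X, Polynomial.eval_C, C_1, one_mul, ← C_pow, ← map_pow, ZMod.pow_card,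
      sub_self]
  have hm : (LamP σ p (1 : B)).Monic := LamP_monic (Or.inl hp.one_lt)
  constructor
  · rintro ⟨Q, hQ⟩ c
    have h1 := congrArg (Polynomial.eval (C (ZMod.castHom (dvd_refl p) B c) :
      MvPolynomial σ B)) hQ
    rw [Polynomial.eval_sub, Polynomial.eval_C, eval_tr, Polynomial.eval_mul, hroot, zero_mul,
      sub_eq_zero] at h1
    exact h1
  · intro h
    unfold Inv
    rw [← Polynomial.modByMonic_eq_zero_iff_dvd hm]
    refine Polynomial.eq_zero_of_natDegree_lt_card_of_eval_eq_zero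
      (f := fun c : ZMod p => (C (ZMod.castHom (dvd_refl p) B c) : MvPolynomial σ B)) _ ?_ ?_ ?_
    · exact (C_injective σ B).comp (ZMod.castHom (dvd_refl p) B).injective
    · intro c
      have h1 := Polynomial.modByMonic_add_div (tr g f - Polynomial.C f) (LamP σ p (1 : B))
      have h2 := congrArg (Polynomial.eval (C (ZMod.castHom (dvd_refl p) B c) :
        MvPolynomial σ B)) h1
      rw [Polynomial.eval_add, Polynomial.eval_mul, hroot, zero_mul, add_zero,
        Polynomial.eval_sub, Polynomial.eval_C, eval_tr, h c, sub_self] at h2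
      exact h2
    · rw [ZMod.card]
      have h3 : (LamP σ p (1 : B)).natDegree = p := by
        unfold LamP Lam
        rw [Polynomial.natDegree_sub_eq_left_of_natDegree_lt, Polynomial.natDegree_X_pow]
        refine lt_of_le_of_lt (Polynomial.natDegree_C_mul_le _ _) ?_
        rw [Polynomial.natDegree_X, Polynomial.natDegree_X_pow]
        exact hp.one_lt
      have h5 : LamP σ p (1 : B) ≠ 1 := by
        intro h4
        have h6 := congrArg Polynomial.natDegree h4
        rw [h3, Polynomial.natDegree_one] at h6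
        exact hp.ne_zero h6
      exact lt_of_lt_of_eq (Polynomial.natDegree_modByMonic_lt _ hm h5) h3

end et

end Pool.Agent.V11261.TQ
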