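import Pool.Agent.V11261.TQ.Op

set_option autoImplicit false
set_option linter.unusedVariables false
set_option linter.unusedSectionVars false

open MvPolynomial

universe u v

namespace Pool.Agent.V11261.TQ

section cf

variable {k E : Type u} [Field k] [Field E] [Algebra k E] {σ : Type v}

/-- The polynomials with coefficients in the subalgebra `C`. -/
noncomputable def cf (σ : Type v) (C' : Subalgebra k E) : Subalgebra k (MvPolynomial σ E) :=
  (MvPolynomial.mapAlgHom (σ := σ) C'.val).range

lemma mem_cf {C' : Subalgebra k E} {f : MvPolynomial σ E} :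
    f ∈ cf σ C' ↔ ∀ d, coeff d f ∈ C' := by
  constructor
  · rintro ⟨g, rfl⟩ d
    change coeff d (MvPolynomial.map (C'.val : C' →+* E) g) ∈ C'
    rw [coeff_map]
    exact (coeff d g).2
  · intro h
    rw [f.as_sum]
    refine Subalgebra.sum_mem _ fun d _ => ?_
    refine ⟨monomial d ⟨coeff d f, h d⟩, ?_⟩
    change MvPolynomial.map (C'.val : C' →+* E) _ = _
    rw [map_monomial]
    rfl

lemma C_mem_cf {C' : Subalgebra k E} {a : E} (h : a ∈ C') : (C a : MvPolynomial σ E) ∈ cf σ C' :=
  ⟨C ⟨a, h⟩, by
    change MvPolynomial.map (C'.val : C' →+* E) _ = _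
    rw [map_C]; rfl⟩

lemma X_mem_cf (C' : Subalgebra k E) (j : σ) : (X j : MvPolynomial σ E) ∈ cf σ C' :=
  ⟨X j, by
    change MvPolynomial.map (C'.val : C' →+* E) _ = _
    rw [map_X]⟩

lemma aeval_mem_cf {C' : Subalgebra k E} {x : σ → MvPolynomial σ E} (hx : ∀ j, x j ∈ cf σ C')
    {f : MvPolynomial σ E} (hf : f ∈ cf σ C') : aeval x f ∈ cf σ C' := by
  rw [mem_cf] at hf
  rw [aeval_def, eval₂_eq]
  refine Subalgebra.sum_mem _ fun d _ => Subalgebra.mul_mem _ ?_ ?_
  · exact C_mem_cf (hf d)
  · exact Subalgebra.prod_mem _ fun i _ => Subalgebra.pow_mem _ (hx i) _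

end cf

section psi

variable {E : Type u} [Field E] {σ : Type v} [DecidableEq σ]

/-- The substitution `X j ↦ X j - u j * X e` for `j ≠ e` and `X e ↦ X e ^ q - b * X e`. -/
noncomputable def psi (e : σ) (u : σ → E) (q : ℕ) (b : E) :
    MvPolynomial σ E →ₐ[E] MvPolynomial σ E :=
  aeval fun j => if j = e then X e ^ q - C b * X e else X j - C (u j) * X e

lemma psi_e (e : σ) (u : σ → E) (q : ℕ) (b : E) : psi e u q b (X e) = X e ^ q - C b * X e := by
  rw [psi, aeval_X, if_pos rfl]

lemma psi_ne (e : σ) (u : σ → E) (q : ℕ) (b : E) {j : σ} (hj : j ≠ e) :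
    psi e u q b (X j) = X j - C (u j) * X e := by
  rw [psi, aeval_X, if_neg hj]

lemma psi_injective (e : σ) (u : σ → E) {q : ℕ} {b : E} (hq : 0 < q) (hb : 1 < q ∨ b = 0) :
    Function.Injective (psi e u q b) := by
  rw [injective_iff_map_eq_zero]
  intro g hg
  let F := AlgebraicClosure E
  have hinj : Function.Injective (algebraMap E F) := (algebraMap E F).injective
  have h1 : MvPolynomial.map (algebraMap E F) g = 0 := by
    apply MvPolynomial.funext
    intro y
    rw [map_zero]
    obtain ⟨t, ht⟩ : ∃ t : F, t ^ q - algebraMap E F b * t = y e := by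
      have hm : (Lam q (algebraMap E F b) - Polynomial.C (y e)).degree ≠ 0 := by
        have h2 : (Lam q (algebraMap E F b)).Monic :=
          Lam_monic (hb.imp_right fun h => by rw [h, map_zero])
        have h3 : (Lam q (algebraMap E F b)).natDegree = q := by
          unfold Lam
          rcases hb with hb | hb
          · rw [Polynomial.natDegree_sub_eq_left_of_natDegree_lt]
            · exact Polynomial.natDegree_X_pow q
            · rw [Polynomial.natDegree_X_pow]
              refine lt_of_le_of_lt (Polynomial.natDegree_C_mul_le _ _) ?_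
              rw [Polynomial.natDegree_X]; exact hb
          · rw [hb, map_zero, Polynomial.C_0, zero_mul, sub_zero, Polynomial.natDegree_X_pow]
        have h4 : (Lam q (algebraMap E F b) - Polynomial.C (y e)).natDegree = q := by
          rw [Polynomial.natDegree_sub_C, h3]
        intro h5
        have h6 : (Lam q (algebraMap E F b) - Polynomial.C (y e)).natDegree = 0 :=
          Polynomial.natDegree_eq_of_degree_eq_some (by rw [h5]; rfl)
        rw [h4] at h6
        omega
      obtain ⟨t, ht⟩ := IsAlgClosed.exists_root _ hm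
      refine ⟨t, ?_⟩
      rw [Polynomial.IsRoot.def, Polynomial.eval_sub, Polynomial.eval_C, Lam,
        Polynomial.eval_sub, Polynomial.eval_mul, Polynomial.eval_pow, Polynomial.eval_X,
        Polynomial.eval_C, sub_eq_zero] at ht
      exact ht
    let x : σ → F := fun j => if j = e then t else y j + algebraMap E F (u j) * t
    have h7 : (aeval x).comp (psi e u q b) = (aeval y : MvPolynomial σ E →ₐ[E] F) := by
      apply MvPolynomial.algHom_ext
      intro j
      change aeval x (psi e u q b (X j)) = _
      rw [aeval_X]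
      by_cases hj : j = e
      · subst hj
        rw [psi_e, map_sub, map_pow, map_mul, aeval_X, aeval_C]
        have hx : x j = t := if_pos rfl
        rw [hx, ht]
      · rw [psi_ne _ _ _ _ hj, map_sub, map_mul, aeval_X, aeval_C, aeval_X]
        have hx : x e = t := if_pos rfl
        have hx' : x j = y j + algebraMap E F (u j) * t := if_neg hj
        rw [hx, hx']
        ring
    have h8 : aeval y g = (0 : F) := by
      have := DFunLike.congr_fun h7 g
      rw [← this]
      change aeval x (psi e u q b g) = 0
      rw [hg, map_zero]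
    rw [eval_map]
    exact h8
  exact (MvPolynomial.map_injective (algebraMap E F) hinj) (by rw [h1, map_zero])

end psi

section one

variable {E : Type u} [Field E] {σ : Type v} [DecidableEq σ]

lemma expPoly {p : ℕ} [Fact p.Prime] [CharP E p] : ExpChar (Polynomial (MvPolynomial σ E)) p :=
  haveI : CharP (MvPolynomial σ E) p := inferInstance
  haveI : CharP (Polynomial (MvPolynomial σ E)) p := inferInstance
  inferInstance

/-- The transport of the translation by `w` under the substitution `psi`. -/
lemma psi_transport {p : ℕ} [Fact p.Prime] [CharP E p] (e : σ) (u : σ → E) (s : ℕ) (b1 : E)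
    (w : σ → E) (q : ℕ) (b β : E)
    (hβ : Lam q b ∣ Polynomial.X ^ p ^ s - Polynomial.C β * Polynomial.X) (j : σ) :
    LamP σ q b ∣ tr w (psi e u (p ^ s) b1 (X j)) - (Polynomial.C (psi e u (p ^ s) b1 (X j)) +
      Polynomial.X * Polynomial.C (C (if j = e then β * w e ^ p ^ s - b1 * w e else
        w j - u j * w e))) := by
  have : ExpChar (Polynomial (MvPolynomial σ E)) p := expPoly
  by_cases hj : j = e
  · subst hj
    rw [if_pos rfl, psi_e, map_sub, map_pow, map_mul, tr_X, tr_C]
    obtain ⟨Q, hQ⟩ := hβ
    have hQ' := congrArg (Polynomial.map (C : E →+* MvPolynomial σ E)) hQ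
    rw [Polynomial.map_mul, Lam_map, Polynomial.map_sub, Polynomial.map_mul, Polynomial.map_pow,
      Polynomial.map_X, Polynomial.map_C] at hQ'
    refine ⟨Q.map (C : E →+* MvPolynomial σ E) * Polynomial.C (C (w j)) ^ p ^ s, ?_⟩
    rw [← mul_assoc, LamP, ← hQ', add_pow_expChar_pow]
    simp only [map_sub, map_mul, map_pow]
    ring
  · rw [if_neg hj, psi_ne _ _ _ _ hj, map_sub, map_mul, tr_X, tr_X, tr_C]
    simp only [map_sub, map_mul]
    refine ⟨0, ?_⟩
    ring

/-- All polynomials in the new coordinates are invariant. -/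
lemma inv_psi {p : ℕ} [Fact p.Prime] [CharP E p] (e : σ) {u : σ → E} (hue : u e = 1) {c : E}
    (s : ℕ) {b : E} (hb : 1 < p ^ s ∨ b = 0) (g : MvPolynomial σ E) :
    Inv (fun j => c * u j) (p ^ s) b (psi e u (p ^ s) (b * c ^ (p ^ s - 1)) g) := by
  have hp : p.Prime := Fact.out
  have hq : 0 < p ^ s := pow_pos hp.pos s
  have h1 := inv_transport (psi_injective e u hq (b := b * c ^ (p ^ s - 1))
    (hb.imp_right fun h => by rw [h, zero_mul])) (w := fun j => c * u j) (w' := 0) hb
    (by
      intro j
      have h2 := psi_transport e u s (b * c ^ (p ^ s - 1)) (fun j => c * u j) (p ^ s) b b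
        (by rfl) j
      convert h2 using 6
      split_ifs with h
      · rw [hue, mul_one, mul_assoc, ← pow_succ, Nat.sub_add_cancel hq, sub_self]
        rfl
      · rw [hue, mul_one, mul_comm, sub_self]
        rfl) g
  rw [h1]
  exact inv_zero _ _ _

end one

end Pool.Agent.V11261.TQ
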