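import Pool.Agent.W418.LCI.Field
import Pool.Agent.W558.Var
import Pool.Agent.W558.S.All

set_option autoImplicit false
set_option linter.unusedVariables false
set_option linter.unusedSectionVars false

universe u

open Pool.Agent.W558

namespace Pool.Agent.V11261.TQ

/-- Smooth modifications of `Spec B` on which finitely many functions are comparable. -/
theorem exists_base {k E : Type u} [Field k] [Field E] [Algebra k E]
    (hE : Pool.Agent.W418.LCI.HasLM k E) (B : Subalgebra k E) (hfg : B.FG)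
    (hfr : ∀ x : E, ∃ a ∈ B, ∃ b ∈ B, b ≠ 0 ∧ x = a * b⁻¹) (S : Finset E)
    (hS : ∀ a ∈ S, a ≠ 0) :
    ∃ (T I : Type) (_ : Finite T) (_ : Fintype I) (M : LM B B T I),
      ∀ t, ∀ a ∈ S, ∀ b ∈ S, a / b ∈ M.A t ∨ b / a ∈ M.A t := by
  classical
  obtain ⟨Gn, hGn⟩ := hfg
  let W : Finset E := (S ∪ Gn).filter (fun x => x ≠ 0)
  let g : Fin W.card → E := fun i => (W.equivFin.symm i).1
  have hgW : ∀ i, g i ∈ W := fun i => (W.equivFin.symm i).2
  have hg : ∀ x ∈ W, ∃ i, g i = x := fun x hx => ⟨W.equivFin ⟨x, hx⟩, by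
    change (W.equivFin.symm (W.equivFin ⟨x, hx⟩)).1 = x
    rw [Equiv.symm_apply_apply]⟩
  have hg0 : ∀ i, g i ≠ 0 := fun i => (Finset.mem_filter.1 (hgW i)).2
  obtain ⟨T, I, i1, i2, M, Γ, hFn, hfr'⟩ := hE (Fin W.card) g hg0
  have hR : B = Algebra.adjoin k (g '' {i | g i ∈ Gn}) := by
    rw [← hGn]
    apply le_antisymm
    · rw [Algebra.adjoin_le_iff]
      intro x hx
      by_cases h0 : x = 0
      · rw [h0]; exact Subalgebra.zero_mem _
      · obtain ⟨i, hi⟩ := hg x (Finset.mem_filter.2 ⟨Finset.mem_union_right _ hx, h0⟩)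
        apply Algebra.subset_adjoin
        exact ⟨i, by change g i ∈ Gn; rw [hi]; exact hx, hi⟩
    · rw [Algebra.adjoin_le_iff]
      rintro _ ⟨i, hi, rfl⟩
      exact Algebra.subset_adjoin hi
  obtain ⟨T', I', j1, j2, M', Γ', hFn', -⟩ :=
    all_restr k E T I (Fin W.card) M g Γ hFn {i | g i ∈ Gn} B hR hfr
  obtain ⟨T'', I'', l1, l2, l3, M'', Γ'', hE'', hC⟩ := princ_all g M' Γ'
  refine ⟨T'', I'', l1, l2, M'', fun t a ha b hb => ?_⟩
  obtain ⟨i, rfl⟩ := hg a (Finset.mem_filter.2 ⟨Finset.mem_union_left _ ha, hS a ha⟩)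
  obtain ⟨j, rfl⟩ := hg b (Finset.mem_filter.2 ⟨Finset.mem_union_left _ hb, hS b hb⟩)
  have hF := hE''.fn hFn'
  rcases hC i j t with h | h
  · right
    exact div_mem_of_le M'' t g Γ'' hF h
  · left
    exact div_mem_of_le M'' t g Γ'' hF h

end Pool.Agent.V11261.TQ
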