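import Pool.Agent.V11261.TQ.Alg
import Pool.Agent.V11261.TQ.Base

set_option autoImplicit false
set_option linter.unusedVariables false
set_option linter.unusedSectionVars false

open MvPolynomial AlgebraicGeometry CategoryTheory Pool.Agent.H920R2 Pool.Agent.W558

universe u v

namespace Pool.Agent.V11261.TQ

/-- The atlas of the quotient. -/
theorem hasResolution_atl {k B : Type u} [Field k] [CommRing B] [IsDomain B] [Algebra k B]
    {p : ℕ} [Fact p.Prime] [CharP B p] {σ : Type}
    [Fintype σ] [DecidableEq σ] (L : List (Op B σ)) (hL : L.Pairwise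
      (fun o1 o2 => Lam o2.q o2.b ∣ Polynomial.X ^ o1.q - Polynomial.C (o2.β o1.q) * Polynomial.X))
    (hOk : ∀ o ∈ L, (∃ s, o.q = p ^ s) ∧ (1 < o.q ∨ o.b = 0))
    {T I : Type} [Finite T]
    (M : LM (IsScalarTower.toAlgHom k B (FractionRing B)).range
      (IsScalarTower.toAlgHom k B (FractionRing B)).range T I)
    (hM : ∀ t, ∃ φ : MvPolynomial σ (FractionRing B) →ₐ[FractionRing B]
        MvPolynomial σ (FractionRing B), Function.Injective φ ∧
        ∀ f, (f ∈ cf σ (M.A t) ∧ ∀ o ∈ L.map (Op.map (algebraMap B (FractionRing B))),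
          o.Inv f) ↔ ∃ g ∈ cf σ (M.A t), f = φ g) :
    HasResolution (X := Spec (CommRingCat.of (ring k L)))
      (Spec.map (CommRingCat.ofHom (algebraMap k (ring k L)))) := by
  classical
  let E := FractionRing B
  let ψ : B →ₐ[k] E := IsScalarTower.toAlgHom k B E
  have hψ : Function.Injective ψ := IsFractionRing.injective B E
  let K := FractionRing (MvPolynomial σ E)
  let ι : MvPolynomial σ E →ₐ[k] K := IsScalarTower.toAlgHom k (MvPolynomial σ E) K
  have hι : Function.Injective ι := IsFractionRing.injective (MvPolynomial σ E) K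
  let mE : MvPolynomial σ B →ₐ[k] MvPolynomial σ E := MvPolynomial.mapAlgHom ψ
  have hmE : Function.Injective mE := MvPolynomial.map_injective _ hψ
  have hmc : ∀ f d, coeff d (mE f) = ψ (coeff d f) := fun f d => coeff_map _ _ _
  let g : ring k L →ₐ[k] K := ι.comp (mE.comp (ring k L).val)
  have hg : Function.Injective g := hι.comp (hmE.comp Subtype.val_injective)
  let LE : List (Op E σ) := L.map (Op.map (algebraMap B E))
  let c : E →+* K := (ι : MvPolynomial σ E →+* K).comp C
  have hc : Function.Injective c := hι.comp (C_injective σ E)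
  let D : T → Subalgebra k K := fun t => (cf σ (M.A t) ⊓ ring k LE).map ι
  have hD : ∀ t f, f ∈ cf σ (M.A t) → (∀ o ∈ LE, o.Inv f) → ι f ∈ D t := by
    intro t f h1 h2
    exact ⟨f, ⟨h1, fun o ho => h2 o ho⟩, rfl⟩
  have hinv : ∀ f : MvPolynomial σ B, (∀ o ∈ LE, o.Inv (mE f)) ↔ f ∈ ring k L := by
    intro f
    constructor
    · intro h o ho
      have h1 := h (Op.map (algebraMap B E) o) (List.mem_map_of_mem ho)
      exact (inv_map (φ := algebraMap B E) (IsFractionRing.injective B E) o.w (hOk o ho).2 f).1 h1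
    · intro h o' ho'
      obtain ⟨o, ho, rfl⟩ := List.mem_map.1 ho'
      exact (inv_map (φ := algebraMap B E) (IsFractionRing.injective B E) o.w
        (hOk o ho).2 f).2 (h o ho)
  have hconst : ∀ (a : E) (f : MvPolynomial σ E), (∀ o ∈ LE, o.Inv f) →
      ∀ o ∈ LE, o.Inv (C a * f) := by
    intro a f h
    exact (ring k LE).mul_mem (C_mem_ring (k := k) LE a) h
  refine hasResolution_of_atl g hg (C := D) (H := fun t => c (M.H t))
    { sm := fun t => ?_
      aa := fun t a => ?_
      H0 := fun t => (map_ne_zero_iff c hc).2 (M.H0 t)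
      hA := fun t => ?_
      rt := fun t t' => ?_
      gl := fun t t' x hx => ?_
      dn := fun t x hx => ?_
      cv := fun V hV => ?_ }
  · -- smoothness
    obtain ⟨φ, hφ, hφ'⟩ := hM t
    have hsm := M.sm t
    have h0 : Algebra.Smooth (M.A t) (MvPolynomial σ (M.A t)) := ⟨inferInstance, inferInstance⟩
    have h1 : Algebra.Smooth k (MvPolynomial σ (M.A t)) :=
      Algebra.Smooth.comp k (M.A t) (MvPolynomial σ (M.A t))
    let Φ : MvPolynomial σ (M.A t) →ₐ[k] K :=
      ι.comp ((φ.restrictScalars k).comp (MvPolynomial.mapAlgHom (M.A t).val))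
    have hΦ : Function.Injective Φ :=
      hι.comp (hφ.comp (MvPolynomial.map_injective _ Subtype.val_injective))
    have h2 : Φ.range = D t := by
      apply le_antisymm
      · rintro _ ⟨f, rfl⟩
        have h3 := (hφ' (φ (MvPolynomial.mapAlgHom (M.A t).val f))).2 ⟨_, ⟨f, rfl⟩, rfl⟩
        exact hD t _ h3.1 h3.2
      · rintro _ ⟨f, ⟨h3, h4⟩, rfl⟩
        obtain ⟨g', ⟨g'', rfl⟩, hg'⟩ := (hφ' f).1 ⟨h3, h4⟩
        exact ⟨g'', by rw [hg']; rfl⟩
    rw [← h2]
    exact Algebra.Smooth.of_equiv (A := MvPolynomial σ (M.A t)) (B := Φ.range)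
      (AlgEquiv.ofInjective Φ hΦ)
  · -- the ring of invariants is contained in the charts
    refine hD t _ (mem_cf.2 fun d => ?_) ((hinv _).2 a.2)
    change coeff d (mE a.1) ∈ M.A t
    rw [hmc]
    exact M.base t ⟨_, rfl⟩
  · obtain ⟨b, hb⟩ := M.HR t
    refine ⟨⟨C b, C_mem_ring L b⟩, ?_⟩
    change c (M.H t) = ι (mE (C b))
    have : mE (C b) = C (ψ b) := map_C _ _
    rw [this, ← hb]
    rfl
  · change c (M.H t') / c (M.H t) ∈ D t
    rw [← map_div₀]
    exact hD t _ (C_mem_cf (M.rt t t')) (C_mem_ring (k := k) LE _)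
  · obtain ⟨f, ⟨h1, h2⟩, rfl⟩ := hx
    have h1' := mem_cf.1 h1
    choose n hn using fun d => M.gl t t' _ (h1' d)
    refine ⟨f.support.sup n, ?_⟩
    change (c (M.H t') / c (M.H t)) ^ _ * ι f ∈ D t
    have h3 : (c (M.H t') / c (M.H t)) ^ (f.support.sup n) * ι f =
        ι (C ((M.H t' / M.H t) ^ (f.support.sup n)) * f) := by
      rw [map_mul, ← map_div₀, ← map_pow]
      rfl
    rw [h3]
    refine hD t _ (mem_cf.2 fun d => ?_) (hconst _ _ h2)
    rw [coeff_C_mul]
    by_cases hd : d ∈ f.support
    · exact M.gl_mono (Finset.le_sup hd) (hn d)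
    · rw [notMem_support_iff.1 hd, mul_zero]
      exact (M.A t).zero_mem
  · obtain ⟨f, ⟨h1, h2⟩, rfl⟩ := hx
    have h1' := mem_cf.1 h1
    choose n hn using fun d => M.dn t _ (h1' d)
    have h4 : C (M.H t ^ (f.support.sup n)) * f ∈ cf σ (ψ.range) := by
      refine mem_cf.2 fun d => ?_
      rw [coeff_C_mul]
      by_cases hd : d ∈ f.support
      · exact M.dn_mono (Finset.le_sup hd) (hn d)
      · rw [notMem_support_iff.1 hd, mul_zero]
        exact Subalgebra.zero_mem _
    obtain ⟨f', hf'⟩ : ∃ f' : MvPolynomial σ B, mE f' = C (M.H t ^ (f.support.sup n)) * f := by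
      have h5 : ∀ d, ∃ b, ψ b = coeff d (C (M.H t ^ (f.support.sup n)) * f) :=
        fun d => mem_cf.1 h4 d
      choose b hb using h5
      have h6 := MvPolynomial.as_sum (C (M.H t ^ (f.support.sup n)) * f : MvPolynomial σ E)
      refine ⟨∑ d ∈ (C (M.H t ^ (f.support.sup n)) * f : MvPolynomial σ E).support,
        monomial d (b d), ?_⟩
      refine Eq.trans ?_ h6.symm
      rw [map_sum]
      refine Finset.sum_congr rfl fun d _ => ?_
      rw [← hb d]
      exact map_monomial _ _ _
    refine ⟨f.support.sup n, ⟨f', (hinv f').1 (by rw [hf']; exact hconst _ _ h2)⟩, ?_⟩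
    change c (M.H t) ^ _ * ι f = ι (mE f')
    rw [hf', map_mul, ← map_pow]
    rfl
  · -- valuations
    let V' : ValuationSubring E := V.comap c
    have hV' : ∀ x, x ∈ V' ↔ c x ∈ V := fun x => Iff.rfl
    obtain ⟨t, ht⟩ := M.cv V' (by
      rintro _ ⟨b, rfl⟩
      rw [hV']
      have h1 := hV ⟨C b, C_mem_ring L b⟩
      have h2 : g ⟨C b, C_mem_ring L b⟩ = c (ψ b) := by
        change ι (mE (C b)) = _
        have : mE (C b) = C (ψ b) := map_C _ _
        rw [this]
        rfl
      rw [h2] at h1
      exact h1)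
    refine ⟨t, ?_⟩
    have hX : ∀ j, ι (X j) ∈ V := by
      intro j
      obtain ⟨P, h2, h3, h4⟩ := exists_monic (p := p) j L hL hOk
      let y : ring k L := ⟨Polynomial.aeval (X j : MvPolynomial σ B) P, h4⟩
      have hy : g y ∈ V := hV y
      have hb : ∀ b : B, c (ψ b) ∈ V := fun b => ht _ (M.base t ⟨b, rfl⟩)
      let cV : B →+* V :=
        { toFun := fun a => ⟨c (ψ a), hb a⟩
          map_one' := Subtype.ext (by simp)
          map_mul' := fun a b => Subtype.ext (by simp)
          map_zero' := Subtype.ext (by simp)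
          map_add' := fun a b => Subtype.ext (by simp) }
      have hint : IsIntegral V (ι (X j)) := by
        refine ⟨P.map cV - Polynomial.C ⟨g y, hy⟩, ?_, ?_⟩
        · refine Polynomial.Monic.sub_of_left (h2.map cV) ?_
          rw [Polynomial.degree_eq_natDegree (h2.map cV).ne_zero, h2.natDegree_map]
          refine lt_of_le_of_lt Polynomial.degree_C_le ?_
          exact_mod_cast h3
        · rw [Polynomial.eval₂_sub, Polynomial.eval₂_C, Polynomial.eval₂_map]
          have h5 : (algebraMap V K).comp cV = (c.comp (ψ : B →+* E)) := rfl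
          rw [h5]
          have h6 : g y = Polynomial.eval₂ (c.comp (ψ : B →+* E)) (ι (X j)) P := by
            change ι (mE (Polynomial.aeval (X j : MvPolynomial σ B) P)) = _
            rw [Polynomial.aeval_def]
            have h7 := Polynomial.hom_eval₂ P (algebraMap B (MvPolynomial σ B))
              ((ι : MvPolynomial σ E →+* K).comp (mE : MvPolynomial σ B →+* MvPolynomial σ E))
              (X j)
            have h8 : ((ι : MvPolynomial σ E →+* K).comp
                (mE : MvPolynomial σ B →+* MvPolynomial σ E)).comp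
                (algebraMap B (MvPolynomial σ B)) = c.comp (ψ : B →+* E) := by
              ext b
              change ι (mE (C b)) = ι (C (ψ b))
              have : mE (C b) = C (ψ b) := map_C _ _
              rw [this]
            have h9 : ((ι : MvPolynomial σ E →+* K).comp
                (mE : MvPolynomial σ B →+* MvPolynomial σ E)) (X j) = ι (X j) := by
              change ι (mE (X j)) = _
              have : mE (X j) = X j := map_X _ _
              rw [this]
            rw [h8, h9] at h7
            exact h7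
          change _ - g y = 0
          rw [h6, sub_self]
      obtain ⟨z, hz⟩ := IsIntegrallyClosed.isIntegral_iff.1 hint
      rw [← hz]
      exact z.2
    rintro _ ⟨f, ⟨h1, -⟩, rfl⟩
    have h1' := mem_cf.1 h1
    change ι f ∈ V
    rw [f.as_sum, map_sum]
    refine sum_mem fun d _ => ?_
    rw [monomial_eq, map_mul, Finsupp.prod, map_prod]
    refine mul_mem ?_ (prod_mem fun i _ => ?_)
    · exact ht _ (h1' d)
    · rw [map_pow]
      exact pow_mem (hX i) _

/-- Resolution of the quotients. -/
theorem hasResolution {k B : Type u} [Field k] [CommRing B] [IsDomain B] [Algebra k B]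
    [Algebra.FiniteType k B] (hE : Pool.Agent.W418.LCI.HasLM k (FractionRing B))
    {p : ℕ} [Fact p.Prime] [CharP B p] {σ : Type}
    [Fintype σ] [DecidableEq σ] (L : List (Op B σ)) (hL : L.Pairwise
      (fun o1 o2 => Lam o2.q o2.b ∣ Polynomial.X ^ o1.q - Polynomial.C (o2.β o1.q) * Polynomial.X))
    (hOk : ∀ o ∈ L, (∃ s, o.q = p ^ s) ∧ (1 < o.q ∨ o.b = 0)) :
    HasResolution (X := Spec (CommRingCat.of (ring k L)))
      (Spec.map (CommRingCat.ofHom (algebraMap k (ring k L)))) := by
  classical
  let E := FractionRing B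
  have hEp : CharP E p := charP_of_injective_algebraMap (IsFractionRing.injective B E) p
  let ψ : B →ₐ[k] E := IsScalarTower.toAlgHom k B E
  obtain ⟨S, hS, hS'⟩ := chart k (p := p) L.length (L.map (Op.map (algebraMap B E)))
    (by rw [List.length_map]) (by
      rw [List.pairwise_map]
      refine hL.imp ?_
      intro o1 o2 h
      have h1 := Polynomial.map_dvd (algebraMap B E) h
      rw [Lam_map, Polynomial.map_sub, Polynomial.map_mul, Polynomial.map_pow, Polynomial.map_X,
        Polynomial.map_C] at h1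
      exact h1) (by
      intro o' ho'
      obtain ⟨o, ho, rfl⟩ := List.mem_map.1 ho'
      exact ⟨(hOk o ho).1, (hOk o ho).2.imp_right fun h => by
        change algebraMap B E o.b = 0
        rw [h, map_zero]⟩)
  have hfg : ψ.range.FG := by
    have h1 := (Algebra.FiniteType.out (R := k) (A := B)).map ψ
    rwa [Algebra.map_top] at h1
  have hfr : ∀ x : E, ∃ a ∈ ψ.range, ∃ b ∈ ψ.range, b ≠ 0 ∧ x = a * b⁻¹ := by
    intro x
    obtain ⟨a, b, hb, rfl⟩ := IsFractionRing.div_surjective (A := B) x
    refine ⟨_, ⟨a, rfl⟩, _, ⟨b, rfl⟩, ?_, ?_⟩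
    · exact (FaithfulSMul.algebraMap_eq_zero_iff B E).not.2 (nonZeroDivisors.ne_zero hb)
    · rw [div_eq_mul_inv]
      rfl
  obtain ⟨T, I, i1, i2, M, hM⟩ := exists_base hE ψ.range hfg hfr S hS
  refine hasResolution_atl L hL hOk M fun t => hS' (M.A t) ?_ (hM t)
  intro o' ho'
  obtain ⟨o, ho, rfl⟩ := List.mem_map.1 ho'
  exact ⟨fun j => M.base t ⟨_, rfl⟩, M.base t ⟨_, rfl⟩, fun n => M.base t ⟨_, rfl⟩⟩

end Pool.Agent.V11261.TQ
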