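import Pool.Agent.V11261.TQ.Chart

set_option autoImplicit false
set_option linter.unusedVariables false
set_option linter.unusedSectionVars false

open MvPolynomial

universe u v

namespace Pool.Agent.V11261.TQ

section map

variable {R S : Type u} [CommRing R] [CommRing S] {σ : Type v}

/-- Change of the ring of coefficients. -/
noncomputable def Op.map (φ : R → S) (o : Op R σ) : Op S σ where
  w j := φ (o.w j)
  q := o.q
  b := φ o.b
  β n := φ (o.β n)

lemma tr_map (φ : R →+* S) (w : σ → R) (f : MvPolynomial σ R) :
    tr (fun j => φ (w j)) (MvPolynomial.map φ f) =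
      (tr w f).map (MvPolynomial.map φ : MvPolynomial σ R →+* MvPolynomial σ S) := by
  have h : ((tr (fun j => φ (w j)) : MvPolynomial σ S →+* _).comp
      (MvPolynomial.map φ : MvPolynomial σ R →+* MvPolynomial σ S)) =
      (Polynomial.mapRingHom (MvPolynomial.map φ : MvPolynomial σ R →+* MvPolynomial σ S)).comp
        (tr w : MvPolynomial σ R →+* _) := by
    apply MvPolynomial.ringHom_ext
    · intro a
      change tr _ (MvPolynomial.map φ (C a)) = Polynomial.map _ (tr w (C a))
      rw [map_C, tr_C, tr_C, Polynomial.map_C, map_C]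
    · intro j
      change tr _ (MvPolynomial.map φ (X j)) = Polynomial.map _ (tr w (X j))
      rw [map_X, tr_X, tr_X, Polynomial.map_add, Polynomial.map_mul, Polynomial.map_C,
        Polynomial.map_C, Polynomial.map_X, map_X, map_C]
  exact DFunLike.congr_fun h f

lemma inv_map {φ : R →+* S} (hφ : Function.Injective φ) (w : σ → R) {q : ℕ} {b : R}
    (hb : 1 < q ∨ b = 0) (f : MvPolynomial σ R) :
    Inv (fun j => φ (w j)) q (φ b) (MvPolynomial.map φ f) ↔ Inv w q b f := by
  have hm : (LamP σ q b).Monic := LamP_monic hb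
  have e1 : (LamP σ q b).map (MvPolynomial.map φ : MvPolynomial σ R →+* MvPolynomial σ S) =
      LamP σ q (φ b) := LamP_map _ _ _ _ (map_C _ _)
  have hm' : (LamP σ q (φ b)).Monic := by
    rw [← e1]
    exact hm.map _
  unfold Inv
  have e2 : tr (fun j => φ (w j)) (MvPolynomial.map φ f) - Polynomial.C (MvPolynomial.map φ f) =
      (tr w f - Polynomial.C f).map
        (MvPolynomial.map φ : MvPolynomial σ R →+* MvPolynomial σ S) := by
    rw [tr_map, Polynomial.map_sub, Polynomial.map_C]
  rw [e2, ← Polynomial.modByMonic_eq_zero_iff_dvd hm, ← Polynomial.modByMonic_eq_zero_iff_dvd hm',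
    ← e1, ← Polynomial.map_modByMonic _ hm]
  exact Polynomial.map_eq_zero_iff (MvPolynomial.map_injective φ hφ)

end map

section alg

variable {k R : Type u} [CommRing k] [CommRing R] [Algebra k R] {σ : Type v}

/-- The ring of invariants. -/
noncomputable def ring (k : Type u) {R : Type u} [CommRing k] [CommRing R] [Algebra k R]
    {σ : Type v} (L : List (Op R σ)) : Subalgebra k (MvPolynomial σ R) where
  carrier := {f | ∀ o ∈ L, Inv o.w o.q o.b f}
  mul_mem' := by
    intro f g hf hg o ho
    have h1 := hf o ho
    have h2 := hg o ho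
    unfold Inv at *
    have : tr o.w (f * g) - Polynomial.C (f * g) = (tr o.w f - Polynomial.C f) * tr o.w g +
        Polynomial.C f * (tr o.w g - Polynomial.C g) := by
      rw [map_mul, map_mul]; ring
    rw [this]
    exact dvd_add (dvd_mul_of_dvd_left h1 _) (dvd_mul_of_dvd_right h2 _)
  add_mem' := by
    intro f g hf hg o ho
    have h1 := hf o ho
    have h2 := hg o ho
    unfold Inv at *
    have : tr o.w (f + g) - Polynomial.C (f + g) = (tr o.w f - Polynomial.C f) +
        (tr o.w g - Polynomial.C g) := by
      rw [map_add, map_add]; ring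
    rw [this]
    exact dvd_add h1 h2
  algebraMap_mem' := by
    intro c o ho
    unfold Inv
    have h1 : algebraMap k (MvPolynomial σ R) c = C (algebraMap k R c) := rfl
    rw [h1, tr_C, sub_self]
    exact dvd_zero _

lemma C_mem_ring (L : List (Op R σ)) (a : R) : (C a : MvPolynomial σ R) ∈ ring k L := by
  intro o ho
  unfold Inv
  rw [tr_C, sub_self]
  exact dvd_zero _

end alg

section int

variable {R : Type u} [CommRing R] [IsDomain R] {p : ℕ} [Fact p.Prime] [CharP R p] {σ : Type v}

/-- Additive polynomials. -/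
def Addv (σ : Type v) (P : Polynomial R) : Prop :=
  ∀ x y : Polynomial (MvPolynomial σ R), Polynomial.aeval (x + y) P =
    Polynomial.aeval x P + Polynomial.aeval y P

lemma exists_additive (j : σ) : ∀ (L : List (Op R σ)), L.Pairwise
      (fun o1 o2 => Lam o2.q o2.b ∣ Polynomial.X ^ o1.q - Polynomial.C (o2.β o1.q) * Polynomial.X) →
    (∀ o ∈ L, (∃ s, o.q = p ^ s) ∧ (1 < o.q ∨ o.b = 0)) → ∀ (P : Polynomial R), P.Monic →
    0 < P.natDegree → Addv σ P → (∀ o ∈ L, ∀ w : R, ∃ β : R,
      Lam o.q o.b ∣ P.comp (Polynomial.C w * Polynomial.X) - Polynomial.C β * Polynomial.X) →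
    ∃ P' : Polynomial R, P'.Monic ∧ 0 < P'.natDegree ∧ Addv σ P' ∧
      (∀ o ∈ L, Lam o.q o.b ∣ P'.comp (Polynomial.C (o.w j) * Polynomial.X)) ∧
      ∀ (Λ : Polynomial R) (w : R), Λ ∣ P.comp (Polynomial.C w * Polynomial.X) →
        Λ ∣ P'.comp (Polynomial.C w * Polynomial.X) := by
  have hp : p.Prime := Fact.out
  have hE1 : ExpChar (Polynomial R) p :=
    haveI : CharP (Polynomial R) p := inferInstance
    inferInstance
  have hE2 : ExpChar (Polynomial (MvPolynomial σ R)) p :=
    haveI : CharP (MvPolynomial σ R) p := inferInstance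
    haveI : CharP (Polynomial (MvPolynomial σ R)) p := inferInstance
    inferInstance
  intro L
  induction L with
  | nil =>
    intro _ _ P h1 h2 h3 _
    exact ⟨P, h1, h2, h3, by simp, fun _ _ h => h⟩
  | cons o L' ih =>
    intro hP hOk P h1 h2 h3 h4
    rw [List.pairwise_cons] at hP
    obtain ⟨⟨s, hs⟩, hqb⟩ := hOk o List.mem_cons_self
    have hq : 0 < p ^ s := pow_pos hp.pos s
    obtain ⟨β, hβ⟩ := h4 o List.mem_cons_self (o.w j)
    rw [hs] at hβ hqb
    set c : R := o.b * β ^ (p ^ s - 1) with hc
    let P1 : Polynomial R := P ^ p ^ s - Polynomial.C c * P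
    have hcomp : ∀ w : R, P1.comp (Polynomial.C w * Polynomial.X) =
        (P.comp (Polynomial.C w * Polynomial.X)) ^ p ^ s -
          Polynomial.C c * P.comp (Polynomial.C w * Polynomial.X) := by
      intro w
      rw [Polynomial.sub_comp, Polynomial.mul_comp, Polynomial.pow_comp, Polynomial.C_comp]
    have hdiv : ∀ (Λ Z Y : Polynomial R), Λ ∣ Z - Y → Λ ∣ Z ^ p ^ s - Y ^ p ^ s := by
      intro Λ Z Y h
      rw [← sub_pow_expChar_pow]
      exact dvd_pow h hq.ne'
    have hmon : P1.Monic := by
      rcases hqb with h | h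
      · refine (h1.pow _).sub_of_left ?_
        refine Polynomial.degree_lt_degree ?_
        refine lt_of_le_of_lt (Polynomial.natDegree_C_mul_le c P) ?_
        rw [h1.natDegree_pow]
        nlinarith
      · have : P1 = P ^ p ^ s := by
          change P ^ p ^ s - Polynomial.C c * P = _
          rw [hc, h, zero_mul, Polynomial.C_0, zero_mul, sub_zero]
        rw [this]
        exact h1.pow _
    have hnd : 0 < P1.natDegree := by
      rcases hqb with h | h
      · have h5 : P1.natDegree = p ^ s * P.natDegree := by
          change (P ^ p ^ s - Polynomial.C c * P).natDegree = _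
          rw [Polynomial.natDegree_sub_eq_left_of_natDegree_lt, h1.natDegree_pow]
          refine lt_of_le_of_lt (Polynomial.natDegree_C_mul_le c P) ?_
          rw [h1.natDegree_pow]
          nlinarith
        rw [h5]
        positivity
      · have : P1 = P ^ p ^ s := by
          change P ^ p ^ s - Polynomial.C c * P = _
          rw [hc, h, zero_mul, Polynomial.C_0, zero_mul, sub_zero]
        rw [this, h1.natDegree_pow]
        positivity
    have hadd : Addv σ P1 := by
      intro x y
      have h5 : ∀ z : Polynomial (MvPolynomial σ R), Polynomial.aeval z P1 =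
          (Polynomial.aeval z P) ^ p ^ s - algebraMap R _ c * Polynomial.aeval z P := by
        intro z
        change Polynomial.aeval z (P ^ p ^ s - Polynomial.C c * P) = _
        rw [map_sub, map_mul, map_pow, Polynomial.aeval_C]
      rw [h5, h5, h5, h3, add_pow_expChar_pow]
      ring
    have hlin : ∀ o' ∈ L', ∀ w : R, ∃ β' : R, Lam o'.q o'.b ∣
        P1.comp (Polynomial.C w * Polynomial.X) - Polynomial.C β' * Polynomial.X := by
      intro o' ho' w
      obtain ⟨γ, hγ⟩ := h4 o' (List.mem_cons_of_mem _ ho') w
      have h5 := hP.1 o' ho'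
      rw [hs] at h5
      refine ⟨γ ^ p ^ s * o'.β (p ^ s) - c * γ, ?_⟩
      have h6 := hdiv _ _ _ hγ
      have h7 : P1.comp (Polynomial.C w * Polynomial.X) -
          Polynomial.C (γ ^ p ^ s * o'.β (p ^ s) - c * γ) * Polynomial.X =
          ((P.comp (Polynomial.C w * Polynomial.X)) ^ p ^ s -
            (Polynomial.C γ * Polynomial.X) ^ p ^ s) +
          Polynomial.C γ ^ p ^ s *
            (Polynomial.X ^ p ^ s - Polynomial.C (o'.β (p ^ s)) * Polynomial.X) -
          Polynomial.C c * (P.comp (Polynomial.C w * Polynomial.X) -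
            Polynomial.C γ * Polynomial.X) := by
        rw [hcomp]
        simp only [map_sub, map_mul, map_pow]
        ring
      rw [h7]
      exact dvd_sub (dvd_add h6 (dvd_mul_of_dvd_right h5 _)) (dvd_mul_of_dvd_right hγ _)
    obtain ⟨P', g1, g2, g3, g4, g5⟩ := ih hP.2 (fun o' ho' => hOk o' (List.mem_cons_of_mem _ ho'))
      P1 hmon hnd hadd hlin
    refine ⟨P', g1, g2, g3, ?_, ?_⟩
    · intro o' ho'
      rcases List.mem_cons.1 ho' with rfl | ho'
      · apply g5
        rw [hs, hcomp]
        have h6 := hdiv _ _ _ hβ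
        have h7 : (P.comp (Polynomial.C (o'.w j) * Polynomial.X)) ^ p ^ s -
            Polynomial.C c * P.comp (Polynomial.C (o'.w j) * Polynomial.X) =
            ((P.comp (Polynomial.C (o'.w j) * Polynomial.X)) ^ p ^ s -
              (Polynomial.C β * Polynomial.X) ^ p ^ s) -
            Polynomial.C c * (P.comp (Polynomial.C (o'.w j) * Polynomial.X) -
              Polynomial.C β * Polynomial.X) + Polynomial.C β ^ p ^ s * Lam (p ^ s) o'.b := by
          have h8 : (Polynomial.C c * Polynomial.C β : Polynomial R) =
              Polynomial.C β ^ p ^ s * Polynomial.C o'.b := by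
            rw [hc, ← Polynomial.C_mul, ← Polynomial.C_pow, ← Polynomial.C_mul]
            congr 1
            have : β ^ p ^ s = β ^ (p ^ s - 1) * β := by rw [← pow_succ, Nat.sub_add_cancel hq]
            rw [this]; ring
          unfold Lam
          linear_combination (-Polynomial.X) * h8
        rw [h7]
        exact dvd_add (dvd_sub h6 (dvd_mul_of_dvd_right hβ _)) (dvd_mul_left _ _)
      · exact g4 o' ho'
    · intro Λ w h
      apply g5
      rw [hcomp]
      exact dvd_sub (dvd_pow h hq.ne') (dvd_mul_of_dvd_right h _)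

/-- The coordinates are integral over the ring of invariants. -/
theorem exists_monic (j : σ) (L : List (Op R σ)) (hL : L.Pairwise
      (fun o1 o2 => Lam o2.q o2.b ∣ Polynomial.X ^ o1.q - Polynomial.C (o2.β o1.q) * Polynomial.X))
    (hOk : ∀ o ∈ L, (∃ s, o.q = p ^ s) ∧ (1 < o.q ∨ o.b = 0)) :
    ∃ P : Polynomial R, P.Monic ∧ 0 < P.natDegree ∧
      ∀ o ∈ L, Inv o.w o.q o.b (Polynomial.aeval (X j : MvPolynomial σ R) P) := by
  obtain ⟨P, h1, h2, h3, h4, -⟩ := exists_additive (p := p) j L hL hOk Polynomial.X
    Polynomial.monic_X (by rw [Polynomial.natDegree_X]; exact one_pos)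
    (fun x y => by rw [Polynomial.aeval_X, Polynomial.aeval_X, Polynomial.aeval_X])
    (fun o _ w => ⟨w, by rw [Polynomial.X_comp, sub_self]; exact dvd_zero _⟩)
  refine ⟨P, h1, h2, fun o ho => ?_⟩
  unfold Inv
  have e1 : tr o.w (Polynomial.aeval (X j : MvPolynomial σ R) P) =
      Polynomial.aeval (tr o.w (X j)) P := (Polynomial.aeval_algHom_apply _ _ _).symm
  have e2 : Polynomial.aeval (Polynomial.C (X j : MvPolynomial σ R)) P =
      Polynomial.C (Polynomial.aeval (X j : MvPolynomial σ R) P) :=
    Polynomial.aeval_algHom_apply (Polynomial.CAlgHom (R := R) (A := MvPolynomial σ R)) _ _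
  have e3 : Polynomial.aeval (Polynomial.X * Polynomial.C (C (o.w j) : MvPolynomial σ R)) P =
      (P.comp (Polynomial.C (o.w j) * Polynomial.X)).map (C : R →+* MvPolynomial σ R) := by
    rw [Polynomial.map_comp, Polynomial.map_mul, Polynomial.map_C, Polynomial.map_X,
      Polynomial.comp, Polynomial.eval₂_map, Polynomial.aeval_def, mul_comm]
    rfl
  rw [e1, tr_X, h3, e2, e3, add_sub_cancel_left]
  have h5 := Polynomial.map_dvd (C : R →+* MvPolynomial σ R) (h4 o ho)
  rw [Lam_map] at h5
  exact h5

end int

section ft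

/-- The ring of invariants is of finite type. -/
theorem finiteType {k R : Type u} [Field k] [CommRing R] [IsDomain R] [Algebra k R]
    [Algebra.FiniteType k R] {p : ℕ} [Fact p.Prime] [CharP R p] {σ : Type} [Finite σ]
    (L : List (Op R σ)) (hL : L.Pairwise
      (fun o1 o2 => Lam o2.q o2.b ∣ Polynomial.X ^ o1.q - Polynomial.C (o2.β o1.q) * Polynomial.X))
    (hOk : ∀ o ∈ L, (∃ s, o.q = p ^ s) ∧ (1 < o.q ∨ o.b = 0)) :
    Algebra.FiniteType k (ring k L) := by
  have h0 : Algebra.FiniteType k (MvPolynomial σ R) := by
    have : Algebra.FiniteType R (MvPolynomial σ R) := inferInstance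
    exact Algebra.FiniteType.trans (S := R) inferInstance inferInstance
  have h1 : Algebra.IsIntegral (ring k L) (MvPolynomial σ R) := by
    refine ⟨fun f => ?_⟩
    induction f using MvPolynomial.induction_on with
    | C a =>
      exact isIntegral_algebraMap (R := ring k L) (A := MvPolynomial σ R)
        (x := ⟨C a, C_mem_ring L a⟩)
    | add f g hf hg => exact hf.add hg
    | mul_X f j hf =>
      refine hf.mul ?_
      obtain ⟨P, h2, h3, h4⟩ := exists_monic (p := p) j L hL hOk
      let y : ring k L := ⟨Polynomial.aeval (X j : MvPolynomial σ R) P, h4⟩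
      let c : R →+* ring k L :=
        { toFun := fun a => ⟨C a, C_mem_ring L a⟩
          map_one' := Subtype.ext C_1
          map_mul' := fun a b => Subtype.ext C_mul
          map_zero' := Subtype.ext C_0
          map_add' := fun a b => Subtype.ext C_add }
      refine ⟨P.map c - Polynomial.C y, ?_, ?_⟩
      · refine Polynomial.Monic.sub_of_left (h2.map c) ?_
        rw [Polynomial.degree_eq_natDegree (h2.map c).ne_zero, h2.natDegree_map]
        refine lt_of_le_of_lt Polynomial.degree_C_le ?_
        exact_mod_cast h3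
      · rw [Polynomial.eval₂_sub, Polynomial.eval₂_C, Polynomial.eval₂_map]
        have h5 : (algebraMap (ring k L) (MvPolynomial σ R)).comp c =
            algebraMap R (MvPolynomial σ R) := rfl
        rw [h5]
        change Polynomial.aeval (X j : MvPolynomial σ R) P - Polynomial.aeval _ P = 0
        exact sub_self _
  have h2 : Algebra.FiniteType (ring k L) (MvPolynomial σ R) :=
    Algebra.FiniteType.of_restrictScalars_finiteType k (ring k L) (MvPolynomial σ R)
  have h3 : Module.Finite (ring k L) (MvPolynomial σ R) := Algebra.IsIntegral.finite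
  refine ⟨fg_of_fg_of_fg k (ring k L) (MvPolynomial σ R) h0.out h3.1 ?_⟩
  exact Subtype.val_injective

end ft

end Pool.Agent.V11261.TQ
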