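import Pool.Agent.V11261.TQ.Step

set_option autoImplicit false
set_option linter.unusedVariables false
set_option linter.unusedSectionVars false

open MvPolynomial

universe u v

namespace Pool.Agent.V11261.TQ

section deg

variable {E : Type u} [Field E] {σ : Type v}

lemma totalDegree_aeval_le {x : σ → MvPolynomial σ E} (hx : ∀ j, (x j).totalDegree ≤ 1)
    (f : MvPolynomial σ E) : (aeval x f).totalDegree ≤ f.totalDegree := by
  rw [aeval_def, eval₂_eq]
  refine (totalDegree_finsetSum _ _).trans ?_
  refine Finset.sup_le fun d hd => ?_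
  refine (totalDegree_mul _ _).trans ?_
  have h1 : (algebraMap E (MvPolynomial σ E) (coeff d f)).totalDegree = 0 := totalDegree_C _
  rw [h1, zero_add]
  refine (totalDegree_finsetProd _ _).trans ?_
  refine le_trans ?_ (le_totalDegree hd)
  rw [Finsupp.sum]
  refine Finset.sum_le_sum fun i _ => ?_
  refine (totalDegree_pow _ _).trans ?_
  calc d i * (x i).totalDegree ≤ d i * 1 := Nat.mul_le_mul_left _ (hx i)
    _ = d i := mul_one _

end deg

section quot

variable {k E : Type u} [Field k] [Field E] [Algebra k E] {σ : Type v} [DecidableEq σ]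

lemma mem_of_mul {C' : Subalgebra k E} {e : σ} {q : ℕ} {b : E} (hb : b ∈ C') (hq : 0 < q)
    (hqb : 1 < q ∨ b = 0) {f : MvPolynomial σ E}
    (h : (X e ^ q - C b * X e) * f ∈ cf σ C') : f ∈ cf σ C' := by
  rw [mem_cf] at h ⊢
  have key : ∀ d, coeff d f = coeff (Finsupp.single e q + d) ((X e ^ q - C b * X e) * f) +
      b * coeff (Finsupp.single e (q - 1) + d) f := by
    intro d
    have h1 : (X e ^ q - C b * X e) * f = monomial (Finsupp.single e q) 1 * f -
        C b * (monomial (Finsupp.single e 1) 1 * f) := by
      rw [X_pow_eq_monomial]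
      have : (X e : MvPolynomial σ E) = monomial (Finsupp.single e 1) 1 := rfl
      rw [this]
      ring
    rw [h1, coeff_sub, coeff_C_mul, coeff_monomial_mul, one_mul]
    have h2 : Finsupp.single e q + d = Finsupp.single e 1 + (Finsupp.single e (q - 1) + d) := by
      rw [← add_assoc, ← Finsupp.single_add]
      congr 2
      omega
    rw [h2, coeff_monomial_mul, one_mul]
    ring
  rcases hqb with h1 | h1
  · have h2 : ∀ (n : ℕ) (d : σ →₀ ℕ), f.totalDegree < d e + n → coeff d f ∈ C' := by
      intro n
      induction n with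
      | zero =>
        intro d hd
        have h3 : coeff d f = 0 := by
          by_contra h4
          have h5 := le_totalDegree (mem_support_iff.2 h4)
          have h6 : d e ≤ d.sum fun _ e => e := by
            by_cases h7 : e ∈ d.support
            · exact Finset.single_le_sum (f := fun i => d i) (fun _ _ => Nat.zero_le _) h7
            · rw [Finsupp.notMem_support_iff.1 h7]; exact Nat.zero_le _
          omega
        rw [h3]
        exact C'.zero_mem
      | succ n ih =>
        intro d hd
        rw [key d]
        refine C'.add_mem (h _) (C'.mul_mem hb (ih _ ?_))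
        rw [Finsupp.add_apply, Finsupp.single_eq_same]
        omega
    intro d
    exact h2 (f.totalDegree + 1) d (by omega)
  · intro d
    rw [key d]
    refine C'.add_mem (h _) ?_
    rw [h1, zero_mul]
    exact C'.zero_mem

end quot

section one

variable {k E : Type u} [Field k] [Field E] [Algebra k E] {σ : Type v} [DecidableEq σ]

lemma inv_sub {w : σ → E} {q : ℕ} {b : E} {f g : MvPolynomial σ E} (hf : Inv w q b f)
    (hg : Inv w q b g) : Inv w q b (f - g) := by
  unfold Inv at *
  have : tr w (f - g) - Polynomial.C (f - g) = (tr w f - Polynomial.C f) -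
      (tr w g - Polynomial.C g) := by
    rw [map_sub, map_sub]; ring
  rw [this]
  exact dvd_sub hf hg

lemma inv_of_mul {w : σ → E} {q : ℕ} {b : E} (hb : 1 < q ∨ b = 0) {f g : MvPolynomial σ E}
    (hg0 : g ≠ 0) (hg : Inv w q b g) (h : Inv w q b (g * f)) : Inv w q b f := by
  have hm := LamP_monic (σ := σ) hb
  unfold Inv at *
  have h1 : tr w (g * f) - Polynomial.C (g * f) =
      (tr w g - Polynomial.C g) * tr w f + Polynomial.C g * (tr w f - Polynomial.C f) := by
    rw [map_mul, map_mul]; ring
  rw [h1, dvd_add_right (dvd_mul_of_dvd_left hg _)] at h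
  rw [← Polynomial.smul_eq_C_mul, ← Polynomial.modByMonic_eq_zero_iff_dvd hm,
    Polynomial.smul_modByMonic, smul_eq_zero] at h
  rw [← Polynomial.modByMonic_eq_zero_iff_dvd hm]
  exact h.resolve_left hg0

/-- One step. -/
theorem mem_of_inv {p : ℕ} [Fact p.Prime] [CharP E p] {C' : Subalgebra k E} (e : σ) {u : σ → E}
    (hu : ∀ j, u j ∈ C') (hue : u e = 1) {c : E} (hc : c ∈ C') (hc0 : c ≠ 0) (s : ℕ) {b : E}
    (hbC : b ∈ C') (hb : 1 < p ^ s ∨ b = 0) : ∀ (n : ℕ) (f : MvPolynomial σ E),
    f ∈ cf σ C' → f.totalDegree < n → Inv (fun j => c * u j) (p ^ s) b f →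
    ∃ g ∈ cf σ C', f = psi e u (p ^ s) (b * c ^ (p ^ s - 1)) g := by
  have hp : p.Prime := Fact.out
  have hq : 0 < p ^ s := pow_pos hp.pos s
  have hEx : ExpChar (MvPolynomial σ E) p :=
    haveI : CharP (MvPolynomial σ E) p := inferInstance
    inferInstance
  set b' : E := b * c ^ (p ^ s - 1) with hb'
  have hb'C : b' ∈ C' := C'.mul_mem hbC (C'.pow_mem hc _)
  have hb'0 : 1 < p ^ s ∨ b' = 0 := hb.imp_right fun h => by rw [hb', h, zero_mul]
  have hinv := inv_psi e hue (c := c) s hb
  intro n
  induction n with
  | zero => intro f _ h; omega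
  | succ n ih =>
    intro f hf hd hi
    -- the substitution
    let S : Polynomial (MvPolynomial σ E) →+* MvPolynomial σ E :=
      Polynomial.evalRingHom (-(C c⁻¹ * X e))
    let πf : MvPolynomial σ E := aeval (fun j => X j - C (u j) * X e) f
    let π0f : MvPolynomial σ E := aeval (fun j => if j = e then 0 else X j) f
    have e1 : psi e u (p ^ s) b' π0f = πf := by
      have h1 : (psi e u (p ^ s) b').comp (aeval (fun j => if j = e then 0 else X j)) =
          (aeval (fun j => X j - C (u j) * X e) : MvPolynomial σ E →ₐ[E] MvPolynomial σ E) := by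
        apply MvPolynomial.algHom_ext
        intro j
        rw [AlgHom.comp_apply, aeval_X, aeval_X]
        by_cases hj : j = e
        · rw [if_pos hj, map_zero, hj, hue, C_1, one_mul, sub_self]
        · rw [if_neg hj, psi_ne _ _ _ _ hj]
      exact DFunLike.congr_fun h1 f
    have e2 : S (tr (fun j => c * u j) f) = πf := by
      have h1 : (S.comp (tr (fun j => c * u j) : MvPolynomial σ E →+* _)) =
          ((aeval (fun j => X j - C (u j) * X e) : MvPolynomial σ E →ₐ[E] MvPolynomial σ E) :
            MvPolynomial σ E →+* MvPolynomial σ E) := by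
        apply MvPolynomial.ringHom_ext
        · intro a
          change S (tr _ (C a)) = aeval _ (C a)
          rw [tr_C, aeval_C]
          change Polynomial.eval _ _ = _
          rw [Polynomial.eval_C]
          rfl
        · intro j
          change S (tr _ (X j)) = aeval _ (X j)
          rw [tr_X, aeval_X]
          change Polynomial.eval _ _ = _
          rw [Polynomial.eval_add, Polynomial.eval_mul, Polynomial.eval_C, Polynomial.eval_C,
            Polynomial.eval_X]
          have h2 : (C c⁻¹ * C (c * u j) : MvPolynomial σ E) = C (u j) := by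
            rw [← C_mul]
            congr 1
            field_simp
          calc X j + -(C c⁻¹ * X e) * C (c * u j) = X j - (C c⁻¹ * C (c * u j)) * X e := by ring
            _ = _ := by rw [h2]
      exact DFunLike.congr_fun h1 f
    have e3 : S (LamP σ (p ^ s) b) = - (C (c⁻¹ ^ p ^ s) * (X e ^ p ^ s - C b' * X e)) := by
      change Polynomial.eval _ _ = _
      rw [LamP, Lam, Polynomial.eval_sub, Polynomial.eval_mul, Polynomial.eval_C,
        Polynomial.eval_pow, Polynomial.eval_X]
      have h3 : (-(C c⁻¹ * X e) : MvPolynomial σ E) ^ p ^ s = - (C c⁻¹ * X e) ^ p ^ s := by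
        have := sub_pow_expChar_pow (p := p) (n := s) (0 : MvPolynomial σ E) (C c⁻¹ * X e)
        rw [zero_sub, zero_pow hq.ne', zero_sub] at this
        exact this
      rw [h3, mul_pow]
      have h4 : (C (c⁻¹ ^ p ^ s) * C b' : MvPolynomial σ E) = C b * C c⁻¹ := by
        rw [← C_mul, ← C_mul]
        congr 1
        rw [hb']
        have h5 : c ^ p ^ s = c ^ (p ^ s - 1) * c := by
          rw [← pow_succ, Nat.sub_add_cancel hq]
        rw [inv_pow, h5]
        field_simp
      calc -(C c⁻¹ ^ p ^ s * X e ^ p ^ s) - C b * -(C c⁻¹ * X e)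
          = -(C c⁻¹ ^ p ^ s * X e ^ p ^ s - (C b * C c⁻¹) * X e) := by ring
        _ = _ := by rw [← h4, C_pow]; ring
    obtain ⟨f1, hf1⟩ : (X e ^ p ^ s - C b' * X e) ∣ f - πf := by
      have h1 : S (LamP σ (p ^ s) b) ∣ S (tr (fun j => c * u j) f - Polynomial.C f) :=
        map_dvd S hi
      rw [map_sub, e2, e3] at h1
      have h2 : S (Polynomial.C f) = f := Polynomial.eval_C
      rw [h2] at h1
      have h3 : (X e ^ p ^ s - C b' * X e : MvPolynomial σ E) ∣ πf - f :=
        ((dvd_neg.2 (dvd_mul_left _ _))).trans h1
      exact dvd_sub_comm.1 h3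
    have hπ0 : π0f ∈ cf σ C' := by
      refine aeval_mem_cf (fun j => ?_) hf
      split_ifs
      · exact Subalgebra.zero_mem _
      · exact X_mem_cf C' j
    have hπ : πf ∈ cf σ C' := by
      refine aeval_mem_cf (fun j => ?_) hf
      exact Subalgebra.sub_mem _ (X_mem_cf C' j)
        (Subalgebra.mul_mem _ (C_mem_cf (hu j)) (X_mem_cf C' e))
    have hf1C : f1 ∈ cf σ C' := by
      refine mem_of_mul hb'C hq hb'0 (e := e) ?_
      rw [← hf1]
      exact Subalgebra.sub_mem _ hf hπ
    by_cases h0 : f1 = 0
    · refine ⟨π0f, hπ0, ?_⟩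
      rw [e1]
      rw [h0, mul_zero, sub_eq_zero] at hf1
      exact hf1
    have hL0 : (X e ^ p ^ s - C b' * X e : MvPolynomial σ E) ≠ 0 := by
      have h1 := psi_injective e u (b := b') hq hb'0
      rw [← psi_e e u]
      intro h2
      exact MvPolynomial.X_ne_zero e (h1 (by rw [h2, map_zero]))
    have hdeg : f1.totalDegree < n := by
      have h1 : ((X e ^ p ^ s - C b' * X e) * f1).totalDegree =
          (X e ^ p ^ s - C b' * X e).totalDegree + f1.totalDegree :=
        totalDegree_mul_of_isDomain hL0 h0
      have h2 : 0 < (X e ^ p ^ s - C b' * X e : MvPolynomial σ E).totalDegree := by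
        by_contra h3
        have h4 : (X e ^ p ^ s - C b' * X e : MvPolynomial σ E).totalDegree = 0 := by omega
        obtain h5 := totalDegree_eq_zero_iff_eq_C.1 h4
        have h6 := congrArg (psi e (0 : σ → E) 1 0) h5
        have h7 := congrArg (aeval (fun j => (0 : E))) h5
        have h8 := psi_injective e u (b := b') hq hb'0
        have h9 : psi e u (p ^ s) b' (X e) = psi e u (p ^ s) b'
            (C (coeff 0 (X e ^ p ^ s - C b' * X e : MvPolynomial σ E))) := by
          rw [psi_e, h5, coeff_C, if_pos rfl]
          exact ((psi e u (p ^ s) b').commutes _).symm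
        have h10 := congrArg totalDegree (h8 h9)
        rw [totalDegree_X, totalDegree_C] at h10
        exact one_ne_zero h10
      have h3 : (f - πf).totalDegree ≤ f.totalDegree := by
        refine (totalDegree_sub _ _).trans (max_le le_rfl ?_)
        refine totalDegree_aeval_le (fun j => ?_) f
        refine (totalDegree_sub _ _).trans (max_le (totalDegree_X j).le ?_)
        refine (totalDegree_mul _ _).trans ?_
        rw [totalDegree_C, zero_add]
        exact (totalDegree_X e).le
      rw [hf1, h1] at h3
      omega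
    have hi1 : Inv (fun j => c * u j) (p ^ s) b f1 := by
      refine inv_of_mul hb hL0 ?_ ?_
      · rw [← psi_e e u]
        exact hinv _
      · rw [← hf1]
        refine inv_sub hi ?_
        rw [← e1]
        exact hinv _
    obtain ⟨g1, hg1, hg1'⟩ := ih f1 hf1C hdeg hi1
    refine ⟨π0f + X e * g1, Subalgebra.add_mem _ hπ0 (Subalgebra.mul_mem _ (X_mem_cf C' e) hg1),
      ?_⟩
    rw [map_add, map_mul, e1, psi_e, ← hg1', ← hf1]
    ring

end one

end Pool.Agent.V11261.TQ
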