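import Mathlib

set_option autoImplicit false
set_option linter.unusedVariables false
set_option linter.unusedSectionVars false

open MvPolynomial

universe u v

namespace Pool.Agent.V11261.TQ

section defs

variable {R : Type u} [CommRing R] {σ : Type v}

/-- The generic translation `X j ↦ X j + T * v j`. -/
noncomputable def tr (w : σ → R) : MvPolynomial σ R →ₐ[R] Polynomial (MvPolynomial σ R) :=
  aeval fun j => Polynomial.C (X j) + Polynomial.X * Polynomial.C (C (w j))

lemma tr_X (w : σ → R) (j : σ) :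
    tr w (X j) = Polynomial.C (X j) + Polynomial.X * Polynomial.C (C (w j)) := by
  rw [tr, aeval_X]

lemma tr_C (w : σ → R) (a : R) : tr w (C a) = Polynomial.C (C a) := by
  rw [tr, aeval_C]
  rfl

lemma tr_zero (f : MvPolynomial σ R) : tr (0 : σ → R) f = Polynomial.C f := by
  have h : (tr (0 : σ → R)) = (Polynomial.CAlgHom (R := R) (A := MvPolynomial σ R)) := by
    apply MvPolynomial.algHom_ext
    intro j
    rw [tr_X]
    simp
  rw [h]
  rfl

/-- The polynomial `T ^ q - b * T`. -/
noncomputable def Lam (q : ℕ) (b : R) : Polynomial R :=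
  Polynomial.X ^ q - Polynomial.C b * Polynomial.X

/-- The polynomial `T ^ q - b * T` over the polynomial ring. -/
noncomputable def LamP (σ : Type v) (q : ℕ) (b : R) : Polynomial (MvPolynomial σ R) :=
  Lam q (C b)

lemma Lam_map {S : Type*} [CommRing S] (f : R →+* S) (q : ℕ) (b : R) :
    (Lam q b).map f = Lam q (f b) := by
  rw [Lam, Lam, Polynomial.map_sub, Polynomial.map_mul, Polynomial.map_pow,
    Polynomial.map_X, Polynomial.map_C]

lemma LamP_map {S : Type*} [CommRing S] (f : MvPolynomial σ R →+* MvPolynomial σ S)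
    (q : ℕ) (b : R) (b' : S) (h : f (C b) = C b') : (LamP σ q b).map f = LamP σ q b' := by
  rw [LamP, LamP, Lam_map, h]

lemma Lam_monic {q : ℕ} {b : R} (h : 1 < q ∨ b = 0) : (Lam q b).Monic := by
  rw [Lam]
  rcases h with h | h
  · refine Polynomial.monic_X_pow_sub ?_
    refine lt_of_le_of_lt (Polynomial.degree_C_mul_X_le b) ?_
    exact_mod_cast h
  · rw [h, Polynomial.C_0, zero_mul, sub_zero]
    exact Polynomial.monic_X_pow q

lemma LamP_monic {q : ℕ} {b : R} (h : 1 < q ∨ b = 0) : (LamP σ q b).Monic := by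
  refine Lam_monic ?_
  exact h.imp_right fun h => by rw [h, C_0]

/-- Invariance under the translations by `T * w`, where `T ^ q = b * T`. -/
def Inv (w : σ → R) (q : ℕ) (b : R) (f : MvPolynomial σ R) : Prop :=
  LamP σ q b ∣ tr w f - Polynomial.C f

lemma inv_zero (q : ℕ) (b : R) (f : MvPolynomial σ R) : Inv (0 : σ → R) q b f := by
  rw [Inv, tr_zero, sub_self]
  exact dvd_zero _

end defs

section transport

variable {E : Type u} [Field E] {σ : Type v}

lemma dvd_map_iff {ψ : MvPolynomial σ E →ₐ[E] MvPolynomial σ E} (hψ : Function.Injective ψ)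
    {q : ℕ} {b : E} (hb : 1 < q ∨ b = 0) (h : Polynomial (MvPolynomial σ E)) :
    LamP σ q b ∣ h.map (ψ : MvPolynomial σ E →+* MvPolynomial σ E) ↔ LamP σ q b ∣ h := by
  have hm := LamP_monic (σ := σ) hb
  have e1 : (LamP σ q b).map (ψ : MvPolynomial σ E →+* MvPolynomial σ E) = LamP σ q b :=
    LamP_map _ q b b (by
      change ψ (C b) = C b
      exact ψ.commutes b)
  rw [← Polynomial.modByMonic_eq_zero_iff_dvd hm, ← Polynomial.modByMonic_eq_zero_iff_dvd hm]
  conv_lhs => rw [← e1, ← Polynomial.map_modByMonic _ hm]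
  exact Polynomial.map_eq_zero_iff (f := (ψ : MvPolynomial σ E →+* MvPolynomial σ E)) hψ

theorem inv_transport {ψ : MvPolynomial σ E →ₐ[E] MvPolynomial σ E} (hψ : Function.Injective ψ)
    {w w' : σ → E} {q : ℕ} {b : E} (hb : 1 < q ∨ b = 0)
    (h : ∀ j, LamP σ q b ∣ tr w (ψ (X j)) -
      (Polynomial.C (ψ (X j)) + Polynomial.X * Polynomial.C (C (w' j))))
    (f : MvPolynomial σ E) : Inv w q b (ψ f) ↔ Inv w' q b f := by
  let I : Ideal (Polynomial (MvPolynomial σ E)) := Ideal.span {LamP σ q b}
  let π : Polynomial (MvPolynomial σ E) →ₐ[E] (Polynomial (MvPolynomial σ E) ⧸ I) :=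
    Ideal.Quotient.mkₐ E I
  have hπ : ∀ x y, π x = π y ↔ LamP σ q b ∣ x - y := by
    intro x y
    change (Ideal.Quotient.mk I x = Ideal.Quotient.mk I y) ↔ _
    rw [Ideal.Quotient.eq, Ideal.mem_span_singleton]
  have key : (π.comp (tr w)).comp ψ = (π.comp (Polynomial.mapAlgHom ψ)).comp (tr w') := by
    apply MvPolynomial.algHom_ext
    intro j
    change π (tr w (ψ (X j))) = π (Polynomial.mapAlgHom ψ (tr w' (X j)))
    rw [hπ]
    have e1 : Polynomial.mapAlgHom ψ (tr w' (X j)) =
        Polynomial.C (ψ (X j)) + Polynomial.X * Polynomial.C (C (w' j)) := by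
      rw [tr_X, map_add, map_mul]
      simp only [Polynomial.coe_mapAlgHom, Polynomial.map_C, Polynomial.map_X]
      have : ψ (C (w' j)) = C (w' j) := ψ.commutes (w' j)
      change Polynomial.C (ψ (X j)) + Polynomial.X * Polynomial.C (ψ (C (w' j))) = _
      rw [this]
    rw [e1]
    exact h j
  have k2 : LamP σ q b ∣ tr w (ψ f) - Polynomial.mapAlgHom ψ (tr w' f) := by
    rw [← hπ]
    exact DFunLike.congr_fun key f
  have k3 : tr w (ψ f) - Polynomial.C (ψ f) =
      (tr w (ψ f) - Polynomial.mapAlgHom ψ (tr w' f)) +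
        (tr w' f - Polynomial.C f).map (ψ : MvPolynomial σ E →+* MvPolynomial σ E) := by
    have e2 : Polynomial.mapAlgHom ψ (tr w' f) =
      (tr w' f).map (ψ : MvPolynomial σ E →+* MvPolynomial σ E) := rfl
    rw [e2, Polynomial.map_sub, Polynomial.map_C]
    change _ = _ + (_ - Polynomial.C (ψ f))
    ring
  unfold Inv
  rw [k3, dvd_add_right k2, dvd_map_iff hψ hb]

end transport

end Pool.Agent.V11261.TQ
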